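import Mathlib
import Pool.Agent.R932.ProdF

/-!
# Tate classes on products of powers of `X` with arbitrary smooth varieties, motives of even rank

Let `k` be a field which is finitely generated over `ℚ`, `X` a smooth projective variety over `k` and `T_ℓ`,
for all prime numbers `ℓ`, a direct factor of `H^{2i}(X, ℚ_ℓ)(i)` which is cut out by correspondences
(for example the part which is orthogonal to the algebraic classes), with the symmetric form `B_ℓ` given by
a polarization, of rank `N ≥ 6`. `Γ` is the Galois group of `k` (or the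
fundamental group of a model), `K` a number field and `s : G_K → Γ` the homomorphism given by a closed
point of the generic fibre of a model of `X` (if `k` is a number field, then `K = k` and `s` is the identity).
At the places `v ∉ S` of `K` the characteristic polynomial `P_v` of the geometric Frobenius on `T_ℓ` has
rational coefficients which do not depend on `ℓ` (Deligne).

Suppose that
(1) at some place `w₀ ∉ S` the roots of `P_{w₀}` are simple and `x / y = z / u` for roots
`x ≠ y`, `z`, `u` only if `(z, u) = (x, y)` or `(z, u) = (1 / y, 1 / x)`;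
(2) `u_0, ..., u_m ∉ S` are places at which the roots of `P_{u_i}` are simple and no quotient of
different roots is a root of unity, and for every `g` in `Gal(ℚ)` and every `d` with `0 < d < N` there
are a place `v` of this kind and an element `w` of `Gal(ℚ)` which agrees with `g` on
the intersection of the splitting fields of the `P_{u_i}` such that no set of `d` roots of `P_v` is
stable under `w`, and also a place `v` and an element `w` of this kind such that `w` fixes a root of `P_v`.
These are conditions on finitely many Frobenius polynomials of `X` (they force `N` to be even).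

**Theorem.** There is a set of prime numbers of natural density zero, which depends only on `X`, with
the following property. Let `ℓ` be a prime number outside this set, let `Z` be any smooth variety, open or
proper, over the algebraic closure of `k` (it is defined over a finite extension `k'`), and let `W` be
the cohomology group `H^j(Z, ℚ_ℓ(r))`, which is mixed if `Z` is open
(or `W` is any representation of the open subgroup `U₀` of `Γ` given by `k'` on a `ℚ_ℓ`-vector space: no
continuity, semisimplicity or purity is needed). Suppose that for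
one place `v ∉ S` prime to `ℓ`, a Frobenius element `σ` at `v` and a power `s(σ)^f ∈ U₀` the
eigenvalues of `s(σ)^{-f}` on `W` are roots of a polynomial `R` with rational coefficients, and that some
root of `P_v` has no positive power in the multiplicative group generated by the roots of `R`.
Then for every `n` every multilinear map from `T_ℓ^n` to `W` which is equivariant under an open subgroup
`U` is a linear combination of the maps

`(v_1, ..., v_n) ↦ (∏ B_ℓ(v_i, v_j)) w`,

where the product is over the pairs of a perfect matching of `{1, ..., n}` and `w ∈ W` is fixed by `U`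
(a Tate class on `Z`), and of the maps

`(v_1, ..., v_n) ↦ det(v_{a_1}, ..., v_{a_N}) (∏ B_ℓ(v_i, v_j)) w`,

where `a_1, ..., a_N` are `N` of the variables, the product is over the pairs of a perfect matching of the
other variables and `U` acts on `w ∈ W` by the determinant of its action on `T_ℓ`.

By duality such multilinear maps are the Tate classes in `T_ℓ^{⊗ n} ⊗ W`, a part of the cohomology
of the smooth variety `X^n × Z`. So for `n < N` all these Tate classes on `X^n × Z` are sums of products of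
the polarization classes on `X × X` (algebraic) and Tate classes on `Z`, and they are algebraic if the Tate
classes on `Z` of the same kind are algebraic (for open `Z` this is the conjecture of Jannsen and Tate in the
form of the problem); in general one has in addition one class, the determinant of `T` on `X^N`. Neither
semisimplicity nor anything about the representations at single primes is assumed.

Idea of the proof. Under (1) and (2) the Lie algebra of the image of the Galois group on `T_ℓ` is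
`so(T_ℓ)` for 100 percent of the `ℓ` (starting files). The matrices `A` which annihilate
the multilinear map `φ` (`∑ φ(v_1, ..., A v_j, ..., v_n) = 0`) form a subspace which is stable under `[X, ]`
for all tangent vectors `X` of the image, so for all `X ∈ so(T_ℓ)`. The independent root gives an additive
function `θ` on the multiplicative group of the algebraic closure of `ℚ_ℓ` which is zero on the eigenvalues
on `W` but not on the root. The operator which is `θ(x)` on the generalized eigenspace for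
`x` annihilates `φ` (generalized eigenvectors are mapped to generalized eigenvectors) and it is a nonzero
element of `so(T_ℓ)` over the algebraic closure; its coordinates over `ℚ_ℓ` have the same property. So
`φ` is annihilated by a nonzero ideal, that is by `so(T_ℓ)`, and one uses the first fundamental
theorem for the special orthogonal group for each coordinate of `φ`. The coefficients are then Tate
vectors.
-/

set_option autoImplicit false

namespace Pool.Agent.Results.MP_2a05c8_ag.EvenRankTimesSmooth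

open Matrix Polynomial Filter Topology NumberField IsDedekindDomain

/-- the absolute Galois group of `K`, with its profinite (Krull) topology -/
abbrev AbsoluteGaloisGroup (K : Type) [Field K] : Type := Gal(AlgebraicClosure K/K)

/-- `σ` is an (arithmetic) Frobenius element at the prime `v` of the number field `K`: for some prime
`Q` of the algebraic closure above `v` it acts on the residue field as `x ↦ x ^ N(v)` -/
def IsFrobenius {K : Type} [Field K] [NumberField K] (v : HeightOneSpectrum (𝓞 K))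
    (σ : AbsoluteGaloisGroup K) : Prop :=
  ∃ Q : Ideal (𝓞 (AlgebraicClosure K)), Q.IsMaximal ∧
    Q.comap (algebraMap (𝓞 K) (𝓞 (AlgebraicClosure K))) = v.asIdeal ∧
    ∀ x : 𝓞 (AlgebraicClosure K), σ • x - x ^ Ideal.absNorm v.asIdeal ∈ Q

/-- `ρ` is a continuous representation of `Γ` on `ℚ_ℓ ^ N` by isometries of the nondegenerate symmetric
form with the matrix `B`; for all `v ∉ S` which are prime to `ℓ` the characteristic polynomial of (the image
under `s` of) the geometric Frobenius elements `σ⁻¹` (`σ` arithmetic) at `v` is `P v` -/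
def IsOrthogonalSystem {K : Type} [Field K] [NumberField K] {Γ : Type} [Group Γ] [TopologicalSpace Γ]
    (s : AbsoluteGaloisGroup K →* Γ) (N ℓ : ℕ) [Fact ℓ.Prime]
    (ρ : Γ →* Matrix (Fin N) (Fin N) ℚ_[ℓ]) (B : Matrix (Fin N) (Fin N) ℚ_[ℓ])
    (S : Set (HeightOneSpectrum (𝓞 K))) (P : HeightOneSpectrum (𝓞 K) → ℚ[X]) : Prop :=
  Continuous ρ ∧ Bᵀ = B ∧ B.det ≠ 0 ∧ (∀ γ, (ρ γ)ᵀ * B * ρ γ = B) ∧
    ∀ v ∉ S, (ℓ : 𝓞 K) ∉ v.asIdeal → ∀ σ : AbsoluteGaloisGroup K, IsFrobenius v σ →
      (ρ (s σ⁻¹)).charpoly = (P v).map (algebraMap ℚ ℚ_[ℓ])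

/-- the roots of `P v` are simple, and the quotients `x / y` of different roots are different, except
for `x / y = (1 / y) / (1 / x)` -/
def IsGenericPlace {K : Type} [Field K] [NumberField K]
    (S : Set (HeightOneSpectrum (𝓞 K))) (P : HeightOneSpectrum (𝓞 K) → ℚ[X])
    (v : HeightOneSpectrum (𝓞 K)) : Prop :=
  v ∉ S ∧ (P v).Separable ∧ ∀ x y z u : ℂ, aeval x (P v) = 0 → aeval y (P v) = 0 →
    aeval z (P v) = 0 → aeval u (P v) = 0 → x ≠ y → x * u = z * y →
    (z = x ∧ u = y) ∨ (z * y = 1 ∧ u * x = 1)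

/-- the roots of `P v` are simple, and different roots have different `n`-th powers for all `n > 0` -/
def IsRegularPlace {K : Type} [Field K] [NumberField K]
    (S : Set (HeightOneSpectrum (𝓞 K))) (P : HeightOneSpectrum (𝓞 K) → ℚ[X])
    (v : HeightOneSpectrum (𝓞 K)) : Prop :=
  v ∉ S ∧ (P v).Separable ∧ ∀ n : ℕ, 0 < n → ∀ x y : ℂ,
    aeval x (P v) = 0 → aeval y (P v) = 0 → x ^ n = y ^ n → x = y

/-- the splitting field of `Q` in the algebraic closure of `ℚ` -/
noncomputable def splittingField (Q : ℚ[X]) : Set (AlgebraicClosure ℚ) :=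
  (IntermediateField.adjoin ℚ {x : AlgebraicClosure ℚ | aeval x Q = 0} :
    IntermediateField ℚ (AlgebraicClosure ℚ))

/-- `R` is a set of roots of `Q` which is stable under `w` -/
def IsStableSet (w : AbsoluteGaloisGroup ℚ) (Q : ℚ[X]) (R : Set (AlgebraicClosure ℚ)) : Prop :=
  (∀ x ∈ R, aeval x Q = 0) ∧ ∀ x ∈ R, w x ∈ R

/-- some nonzero complex root of `Q` has no positive power in the multiplicative group generated by
the nonzero complex roots of `R` -/
def HasIndependentRoot (Q R : ℚ[X]) : Prop :=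
  ∃ x : ℂˣ, aeval (x : ℂ) Q = 0 ∧ ∀ m : ℕ, 0 < m →
    x ^ m ∉ Subgroup.closure {y : ℂˣ | aeval (y : ℂ) R = 0}

/-- The representation `W` of the open subgroup `U₀` is independent of the system: for some place `v ∉ S`
prime to `ℓ`, a Frobenius element `σ` at `v` and some `f > 0` with `s(σ) ^ (-f) ∈ U₀`, the
characteristic polynomial of `W(s(σ) ^ (-f))` divides a polynomial `R` with rational coefficients such that
some root of `P v` has no positive power in the group generated by the roots of `R` -/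
def IsIndependent {K : Type} [Field K] [NumberField K] {Γ : Type} [Group Γ]
    (s : AbsoluteGaloisGroup K →* Γ) (ℓ : ℕ) [Fact ℓ.Prime]
    (S : Set (HeightOneSpectrum (𝓞 K))) (P : HeightOneSpectrum (𝓞 K) → ℚ[X])
    (U₀ : Subgroup Γ) {L : ℕ} (W : U₀ →* Matrix (Fin L) (Fin L) ℚ_[ℓ]) : Prop :=
  ∃ (v : HeightOneSpectrum (𝓞 K)) (σ : AbsoluteGaloisGroup K) (f : ℕ) (h : s σ⁻¹ ^ f ∈ U₀) (R : ℚ[X]),
    v ∉ S ∧ (ℓ : 𝓞 K) ∉ v.asIdeal ∧ IsFrobenius v σ ∧ 0 < f ∧
      (W ⟨s σ⁻¹ ^ f, h⟩).charpoly ∣ R.map (algebraMap ℚ ℚ_[ℓ]) ∧ HasIndependentRoot (P v) R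

/-- For every open subgroup `U₀` of `Γ` and every independent representation `W` of `U₀`, every
multilinear map with `k` variables from `ℚ_ℓ ^ N` to `W` which is equivariant under an
open subgroup `U` of `U₀` is a linear combination of the maps `v ↦ (∏ B(v_j, v_{π j})) w` (one factor for
every pair `{j, π j}`), where `π` is a perfect matching of the variables and `w ∈ W` is fixed by `U`, and
of the maps `v ↦ det(v_{a_1}, ..., v_{a_N}) (∏ B(v_i, v_j)) w`, where the `N` variables `v_a` and the pairs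
`(v_i, v_j)` are given by a bijection `e` and `U` acts on `w` by the determinant of its action on
`ℚ_ℓ ^ N` -/
def TateClassesOnProducts {K : Type} [Field K] [NumberField K] {Γ : Type} [Group Γ]
    [TopologicalSpace Γ] (s : AbsoluteGaloisGroup K →* Γ) {N : ℕ} (ℓ : ℕ) [Fact ℓ.Prime]
    (ρ : Γ →* Matrix (Fin N) (Fin N) ℚ_[ℓ]) (B : Matrix (Fin N) (Fin N) ℚ_[ℓ])
    (S : Set (HeightOneSpectrum (𝓞 K))) (P : HeightOneSpectrum (𝓞 K) → ℚ[X]) : Prop :=
  ∀ (U₀ : Subgroup Γ), IsOpen (U₀ : Set Γ) →
    ∀ (L : ℕ) (W : U₀ →* Matrix (Fin L) (Fin L) ℚ_[ℓ]), IsIndependent s ℓ S P U₀ W →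
    ∀ (k : ℕ) (φ : MultilinearMap ℚ_[ℓ] (fun _ : Fin k => Fin N → ℚ_[ℓ]) (Fin L → ℚ_[ℓ]))
      (U : Subgroup U₀), IsOpen (U : Set U₀) →
    (∀ σ ∈ U, ∀ v, φ (fun j => ρ σ *ᵥ v j) = W σ *ᵥ φ v) →
    (fun v => φ v) ∈ Submodule.span ℚ_[ℓ] {ψ : (Fin k → Fin N → ℚ_[ℓ]) → (Fin L → ℚ_[ℓ]) |
      (∃ (π : Equiv.Perm (Fin k)) (w : Fin L → ℚ_[ℓ]), (∀ j, π (π j) = j) ∧ (∀ j, π j ≠ j) ∧
        (∀ σ ∈ U, W σ *ᵥ w = w) ∧
        ∀ v, ψ v = (∏ j with j < π j, (v j ⬝ᵥ B *ᵥ v (π j))) • w) ∨
      ∃ (m : ℕ) (e : (Fin m × Fin 2) ⊕ Fin N ≃ Fin k) (w : Fin L → ℚ_[ℓ]),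
        (∀ σ ∈ U, W σ *ᵥ w = (ρ σ).det • w) ∧
        ∀ v, ψ v = ((Matrix.of fun i => v (e (Sum.inr i))).det *
          ∏ l, (v (e (Sum.inl (l, 0))) ⬝ᵥ B *ᵥ v (e (Sum.inl (l, 1))))) • w}

/-- the set `A` of prime numbers has natural density zero -/
def HasDensityZero (A : Set ℕ) : Prop :=
  Tendsto (fun n : ℕ => (Nat.card {ℓ : ℕ // ℓ ≤ n ∧ ℓ ∈ A} : ℝ) / (Nat.primeCounting n : ℝ))
    atTop (𝓝 0)

/-- **Tate classes on the products of powers of `T`, of even rank, with arbitrary representations, at 100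
percent of the primes `ℓ`.** -/
theorem result (K : Type) [Field K] [NumberField K] (Γ : Type) [Group Γ] [TopologicalSpace Γ]
    [IsTopologicalGroup Γ] [CompactSpace Γ] (s : AbsoluteGaloisGroup K →* Γ) (hs : Continuous s)
    (N : ℕ) (hN5 : 5 ≤ N) (S : Set (HeightOneSpectrum (𝓞 K))) (hS : S.Finite)
    (P : HeightOneSpectrum (𝓞 K) → ℚ[X])
    (ρ : ∀ (ℓ : ℕ) [Fact ℓ.Prime], Γ →* Matrix (Fin N) (Fin N) ℚ_[ℓ])
    (B : ∀ (ℓ : ℕ) [Fact ℓ.Prime], Matrix (Fin N) (Fin N) ℚ_[ℓ])
    (hρ : ∀ (ℓ : ℕ) [Fact ℓ.Prime], IsOrthogonalSystem s N ℓ (ρ ℓ) (B ℓ) S P)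
    -- the places
    (w₀ : HeightOneSpectrum (𝓞 K)) (hw₀ : IsGenericPlace S P w₀)
    (m : ℕ) (u : Fin (m + 1) → HeightOneSpectrum (𝓞 K)) (hu : ∀ i, IsRegularPlace S P (u i))
    (h1 : ∀ (g : AbsoluteGaloisGroup ℚ) (d : ℕ), 0 < d → d < N →
      ∃ (v : HeightOneSpectrum (𝓞 K)) (w : AbsoluteGaloisGroup ℚ), IsRegularPlace S P v ∧
        (∀ x, (∀ i, x ∈ splittingField (P (u i))) → w x = g x) ∧
        ∀ R, IsStableSet w (P v) R → R.ncard ≠ d)
    (h2 : ∀ g : AbsoluteGaloisGroup ℚ,
      ∃ (v : HeightOneSpectrum (𝓞 K)) (w : AbsoluteGaloisGroup ℚ), IsRegularPlace S P v ∧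
        (∀ x, (∀ i, x ∈ splittingField (P (u i))) → w x = g x) ∧
        ∃ x, aeval x (P v) = 0 ∧ w x = x) :
    HasDensityZero {ℓ | ∃ _ : Fact ℓ.Prime, ¬ TateClassesOnProducts s ℓ (ρ ℓ) (B ℓ) S P} := by
  have hN : 0 < N := by omega
  have hgs : ∀ (ℓ : ℕ) [Fact ℓ.Prime], Y142.SI.GenSys K s N ℓ (ρ ℓ) S P := fun ℓ _ =>
    ⟨(hρ ℓ).1, fun v hv hvℓ σ hσ => (hρ ℓ).2.2.2.2 v hv hvℓ σ hσ⟩
  have hfs : ∀ (ℓ : ℕ) [Fact ℓ.Prime],
      Y142.SU.FormSys K s N ℓ (ρ ℓ) (B ℓ) S (fun _ => 1) := fun ℓ _ => by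
    refine ⟨Or.inl (hρ ℓ).2.1, (hρ ℓ).2.2.1, fun γ => ⟨1, ?_⟩, fun v _ _ σ _ => ?_⟩
    · show (ρ ℓ γ)ᵀ * B ℓ * ρ ℓ γ = (1 : ℚ_[ℓ]) • B ℓ
      rw [one_smul]
      exact (hρ ℓ).2.2.2.1 γ
    · show (ρ ℓ (s σ⁻¹))ᵀ * B ℓ * ρ ℓ (s σ⁻¹) = ((1 : ℚ) : ℚ_[ℓ]) • B ℓ
      rw [Rat.cast_one, one_smul]
      exact (hρ ℓ).2.2.2.1 _
  have hsys' : ∀ (ℓ : ℕ) [Fact ℓ.Prime], Y142.SS.Sys K N ℓ ((ρ ℓ).comp s) S P := fun ℓ _ =>
    ⟨(hgs ℓ).1.comp hs, fun v hv hvℓ σ hσ => (hgs ℓ).2 v hv hvℓ σ hσ⟩
  have hnice : ∀ v, IsRegularPlace S P v → Y142.ZS.NiceP S P v := fun v hv =>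
    Y142.SS.nice_of_complexA _ hsys' hv.1 hv.2.1 hv.2.2
  have hgen : Y142.ZS.GenP S P (fun _ => 1) w₀ := by
    refine Y142.SU.gen_of_complexU hw₀.1
      (Y142.SS.monic_of_sysA _ hsys' hw₀.1).1 one_ne_zero hw₀.2.1 ?_
    intro x y z u hx hy hz hu hxy h
    rcases hw₀.2.2 x y z u hx hy hz hu hxy h with h | h
    · exact Or.inl h
    · exact Or.inr ⟨by rw [h.1, Rat.cast_one], by rw [h.2, Rat.cast_one]⟩
  have hLf : ∀ (i : Fin (m + 1)) (x : AlgebraicClosure ℚ),
      x ∈ Y142.ZI.Lf (P (u i)) → x ∈ splittingField (P (u i)) := by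
    intro i x hx
    have h2 : (P (u i)).rootSet (AlgebraicClosure ℚ) =
        {x : AlgebraicClosure ℚ | aeval x (P (u i)) = 0} := by
      ext y
      exact mem_rootSet_of_ne (hu i).2.1.ne_zero
    unfold Y142.ZI.Lf at hx
    rw [h2] at hx
    exact hx
  have hA : ∀ g w : AbsoluteGaloisGroup ℚ,
      (∀ x, (∀ i, x ∈ splittingField (P (u i))) → w x = g x) →
      w⁻¹ * g ∈ Subgroup.closure (⋃ i, Y142.SS.Fix (P (u i))) := by
    intro g w hw
    refine Y142.SS.field_mem _ (fun i => (hu i).2.1.ne_zero) fun x hx => ?_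
    rw [AlgEquiv.mul_apply, ← hw x fun i => hLf i x (hx i), ← AlgEquiv.mul_apply, inv_mul_cancel,
      AlgEquiv.one_apply]
  refine Y142.ZI.DensityZero.mono (R932.density_even hN hS s
    hs ρ hgs B hfs hgen u (fun i => hnice _ (hu i)) ?_ ?_) ?_
  · intro g d hd hdN
    obtain ⟨v, w, hv, hw, hT⟩ := h1 g d hd hdN
    exact ⟨v, hnice v hv, w, fun T hT1 hT2 => hT T ⟨hT1, hT2⟩, hA g w hw⟩
  · intro g
    obtain ⟨v, w, hv, hw, hx⟩ := h2 g
    exact ⟨v, hnice v hv, w, hx, hA g w hw⟩
  · rintro ℓ ⟨hp, hno⟩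
    refine ⟨hp, fun hgood => hno ?_⟩
    intro U₀ hU₀ L W ⟨v, σ, f, hf, R, hv, hvℓ, hσ, hf0, hR, x, hx, hxm⟩ k φ U hU hφ
    exact R932.prod_so (hρ ℓ).1 (hρ ℓ).2.1 hN5 (hρ ℓ).2.2.1 hgood (hρ ℓ).2.2.2.1 hU₀ hf hf0
      ((hρ ℓ).2.2.2.2 v hv hvℓ σ hσ) hR hx hxm hU hφ

end Pool.Agent.Results.MP_2a05c8_ag.EvenRankTimesSmooth
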