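import Pool.Agent.R936.Gal.Fin

/-!
# A theorem of Helly type for the Tate conjecture over finitely generated fields

Let `X i`, `i ∈ I`, be a family (finite or infinite) of smooth projective varieties over a finitely
generated field with absolute Galois group `Γ`, such that the action of `Γ` on the `ℓ`-adic cohomology of
each `X i` is potentially abelian and semisimple, that is, diagonalisable on a subgroup of finite
index, over an algebraic closure of `ℚ_ℓ` (for instance abelian varieties of CM type, Fermat
hypersurfaces, or, over finite fields, all abelian varieties). Let `R` be the rank of the group generated
by the pairs `(ψ, d)`, where `ψ` is the character of an eigenvector of degree `d` in the cohomology of a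
member of the family, up to characters of finite order. (The weights of `ψ` determine `d`, so `R` is the
dimension of the torus which is the Zariski closure of the image of an open subgroup of `Γ` in the
automorphisms of the sum of the cohomology groups. It is at most `g + 1` for the abelian varieties
of CM type which are split by one CM field of degree `2 g`.)

*Open subvarieties.* Let `U` be an open subvariety of the smooth projective variety `P` whose
complement has codimension at least `j` (`SmallComplement`). The kernel of the restriction map from
`H^(2 j)(P)` to `H^(2 j)(U)` is spanned by the classes of the components of codimension `j` of the
complement (`removedClasses`), and, by the theory of weights and semisimplicity, all classes of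
`H^(2 j)(U, ℚ_ℓ(j))` which are fixed by a subgroup of finite index are restrictions of classes on `P`.
So `TateMod` is the statement `T^j(U)` over all finite extensions of the ground field. For `U = P` it is
the Tate conjecture in codimension `j` for `P` over all finite extensions (`TateAct` is this statement
for all `j`).

*Theorem.* If the Tate conjecture holds for all products `X i₁ × ⋯ × X iₘ` in which at most `R + 1`
different members of the family occur, each of them arbitrarily often, then `T^j(U)` holds for all
products `P` of members of the family, all `j` and all open subvarieties `U` of `P` whose complement has
codimension at least `j`.

*Proof.* The cohomology of `X i` has a basis of homogeneous eigenvectors of a subgroup of finite index.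
A product of such eigenvectors on `P` is a Tate class if and only if the sum of its pairs `(ψ, d)` is a
multiple of the pair `(χ, 2)` of the Tate twist, in the torsion-free group of the germs of characters up
to torsion. The group of the integral relations between the pairs modulo `(χ, 2)` is generated by
relations with at most `R + 1` nonzero coefficients (this is shown locally at each prime number, with
the lemma of Nakayama). Products of algebraic words in eigenvectors are algebraic, and an algebraic word
can be divided by a Tate word with few different letters, by contraction with the dual word, which is
algebraic, too. Neither relations between homological and numerical equivalence nor any other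
standard conjecture is used.
-/

open CategoryTheory AlgebraicGeometry

universe u v w w'

namespace Pool.Agent.Results.MP_2a05c8_ag.FewDifferentFactors

open Pool.Agent.H914 Pool.Agent.TH125.Gal Pool.Agent.R936 Pool.Agent.R936.Hel
  Pool.Agent.R936.Gal VarClass Obj WeilCohomology

/-- **The Helly number of the Tate conjecture for potentially abelian Galois representations**: if the
group generated by the characters (with their degrees) of the members of a family has rank at most `R`,
the products with at most `R + 1` different factors decide for all products and their open
subvarieties. -/
theorem result {k : Type u} [Field k] {𝒱 : VarClass k} {ops : CycleOps 𝒱}
    (W : WeilCohomology.{u, v} ops) {I : Type w'} (X : I → 𝒱.Obj) {Γ : Type w} [Group Γ]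
    (χ : Γ →* W.Kˣ) (ρ : ∀ i L, Γ →* (W.H (prodOf X i L) ≃ₐ[W.K] W.H (prodOf X i L)))
    (hρ : FamilyAction W X χ ρ) (hdiag : ∀ i, PotentiallyDiagonal (ρ i [])) (R : ℕ)
    (hR : WeightRankLe W X ρ R)
    (h : ∀ i L, (∃ F : Finset I, F.card ≤ R + 1 ∧ ∀ j ∈ i :: L, j ∈ F) →
      TateAct χ (W.gr (prodOf X i L)) (algClasses W (prodOf X i L)) (ρ i L)) :
    ∀ i L j (U : (prodOf X i L).V.X.Opens), SmallComplement (prodOf X i L) j U →
      TateMod χ (W.gr (prodOf X i L)) (ρ i L) j (removedClasses W (prodOf X i L) j U)
        (algClasses W (prodOf X i L) j) :=
  fun i L j U _ => helly hρ hdiag hR h i L j U

end Pool.Agent.Results.MP_2a05c8_ag.FewDifferentFactors
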