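import Pool.Agent.R936.UniGeo

/-!
# The Tate conjecture for the open subvarieties of the powers of a variety over a finitely generated
# field: an index law

Let `X` be a smooth projective variety over a finitely generated field of any characteristic. The
Galois group `Γ` of this field acts on the Weil cohomology (`ℓ`-adic, with Tate twists suppressed, so
that there is a character `χ`) of all powers `X ^ (n + 1)`, `n = 0, 1, 2, ...` (the structure
`GaloisPowers`: gradings, orientations and classes of algebraic cycles over the separable closure are
respected, and each cycle is defined over a finite extension). No Frobenius elements, weights or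
standard conjectures are used.

*Open subvarieties.* Let `U` be an open subvariety of `Y = X ^ (n + 1)` whose complement has codimension
at least `j` (`SmallComplement`). The kernel of the restriction from `H^(2 j)(Y)` to `H^(2 j)(U)` is
spanned by the classes of the components of codimension `j` of the complement (`removedClasses`), and by
the theory of weights all classes of `H^(2 j)(U, ℚ_ℓ(j))` invariant under an open subgroup of `Γ` are
restrictions of classes on `Y`. So `OpenTate` is the Tate conjecture in codimension `j` for `U`, over all
finite extensions of the ground field: the classes whose restriction to `U` is invariant under a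
subgroup of finite index are algebraic. `TateOpens` is this conjecture for all `j` and all such `U`.

*Unipotent classes* (`UniClass`) of codimension `j` are the classes in `H^(2 j)(Y, ℚ_ℓ(j))` on which some
subgroup of finite index acts unipotently. The Tate classes are among them; the Galois action is
conjectured to be semisimple, then there are no others. `uniDim` is the dimension of the space of all
unipotent classes (in all codimensions), `cycRank` the rank of the group of all algebraic cycles
modulo numerical equivalence.

*Theorem.* The quotient of `uniDim (X ^ n)` and `cycRank (X ^ n)` converges to an element `N ≥ 1` of
`ℕ ∪ {∞}`, and it is at most `N` for even `n`. We have `N = 1` if and only if the Tate conjecture holds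
for all these open subvarieties `U` of all powers of `X` (all codimensions `j`), and homological and
numerical equivalence agree on all powers. If this fails then `N ≥ 2`: the algebraic classes modulo
numerical equivalence make up asymptotically at most one half of the unipotent classes. If `N` is
finite then homological and numerical equivalence agree on all powers of `X`, and all unipotent classes
on all powers are generated by the classes of algebraic cycles and at most `N - 1` unipotent classes
under algebraic correspondences.
-/

open CategoryTheory AlgebraicGeometry Filter Topology

open scoped ENNReal

universe u v w

namespace Pool.Agent.Results.MP_2a05c8_ag.OpenIndexLaw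

open Pool.Agent.H914 Pool.Agent.H914.VarClass Pool.Agent.H914.VarClass.Obj
  Pool.Agent.H914.WeilCohomology Pool.Agent.Y129 Pool.Agent.R936

/-- **The index law for the open subvarieties of the powers of a variety.** -/
theorem result {k : Type u} [Field k] {𝒱 : VarClass k} {ops : CycleOps 𝒱}
    (W : WeilCohomology.{u, v} ops) (X : 𝒱.Obj) [Nontrivial (W.H X)]
    (G : GaloisPowers.{u, v, w} W X) :
    ∃ N : ℕ∞, 1 ≤ N ∧
      Tendsto (fun n => (uniDim G n : ℝ≥0∞) / cycRank ops (pw X n)) atTop (𝓝 (N : ℝ≥0∞)) ∧
      (∀ n, (uniDim G (2 * n + 1) : ℝ≥0∞) / cycRank ops (pw X (2 * n + 1)) ≤ (N : ℝ≥0∞)) ∧
      (N = 1 ↔ ∀ n, TateOpens G n ∧ HomEqNum W (pw X n)) ∧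
      (N ≠ ⊤ → (∀ n, HomEqNum W (pw X n)) ∧ UniGenerated G N) :=
  open_index G

end Pool.Agent.Results.MP_2a05c8_ag.OpenIndexLaw
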