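import Pool.Agent.R936.FinOpen

/-!
# The Tate conjecture for open subvarieties over finite fields: finitely many open subvarieties of
# one power, and one prime number `ℓ`, decide

Let `X` be a smooth projective variety over the field with `q = p ^ e` elements, `b` its total Betti
number and `D` a common denominator of the slopes of its Newton polygons; `N = powerBound b D =
2 b (4 D b ^ 2 + 1) ^ b`. `W` is a Weil cohomology theory (for instance `ℓ`-adic cohomology) on the
smooth projective varieties over the algebraic closure, `Φ` the system of Frobenius endomorphisms.

*Open subvarieties.* Let `U` be an open subvariety of the smooth projective variety `Y` whose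
complement has codimension at least `j` (`SmallComplement`). The kernel of the restriction map from
`H^(2 j)(Y)` to `H^(2 j)(U)` is spanned by the classes of the components of codimension `j` of the
complement (`removedClasses`), and, by the theory of weights, all classes of `H^(2 j)(U, ℚ_ℓ(j))` fixed
by a power of the Frobenius endomorphism are restrictions of classes on `Y`. So `FTateOpen` is the
statement `T^j(U)`: the cycle map of the smooth variety `U` is surjective onto the invariant classes of
`H^(2 j)(U, ℚ_ℓ(j))`, over all finite extensions of the ground field.

*Theorem.* There are open subvarieties `U j` of the one power `X ^ N`, one for each codimension `j`,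
with the following properties (for `j > dim X ^ N` there is nothing to prove, so these are finitely many
conditions; their disjoint union is one smooth variety):

1. `T^j(U j)` holds for all `j` if and only if the conjecture of Tate on the orders of the poles of
   the zeta function (equivalently the Tate conjecture together with the equality of homological and
   numerical equivalence; it implies that the Frobenius endomorphisms act semisimply on the Tate
   classes) holds for all powers of `X`, in all codimensions.
2. If `T^j(U j)` holds for all `j`, then `T^j(V)` holds for all open subvarieties `V` of all powers of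
   `X` with a complement of codimension at least `j`, for all `j`, and for all other Weil cohomology
   theories `W'` (all prime numbers `ℓ'`) which define the same zeta functions.

Neither the semisimplicity of the Frobenius endomorphisms nor any relation between homological and
numerical equivalence is assumed. For projective varieties it is not known that the conjecture `T^j`
is independent of `ℓ`.
-/

open CategoryTheory AlgebraicGeometry

universe u v v'

namespace Pool.Agent.Results.MP_2a05c8_ag.OpensOfOnePower

open Pool.Agent.H914 Pool.Agent.W534 Pool.Agent.Y163 Pool.Agent.R940 Pool.Agent.R936 VarClass Obj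
  WeilCohomology

/-- **Finitely many open subvarieties of one power, and one cohomology theory, decide the Tate
conjecture for all open subvarieties of all powers and all cohomology theories.** -/
theorem result {k : Type u} [Field k] {𝒱 : VarClass k} {ops : CycleOps 𝒱}
    (W : WeilCohomology.{u, v} ops) [IsAlgClosed W.K] (σ : W.K →+* ℂ) (p : ℕ) [Fact p.Prime]
    (Φ : FrobSystem W p) (hRH : ∀ Z : 𝒱.Obj, RiemannHyp Φ σ Z) (X : 𝒱.Obj)
    (hint : HasIntegralPolys Φ σ X) (E : X.Cycles) (hE : X.IsCyc 1 E) (hbig : Big ops X E) (D : ℕ)
    (hD : IsSlopeDenominator Φ σ X D) :
    ∃ U : ∀ _ : ℕ, (pw X (powerBound (Module.finrank W.K (W.H X)) D - 1)).V.X.Opens,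
      (∀ j, SmallComplement _ j (U j)) ∧
      ((∀ j, FTateOpen Φ _ j (U j)) ↔ ∀ n j, j ≤ (pw X n).dim → PoleFormula Φ σ (pw X n) j) ∧
      ((∀ j, FTateOpen Φ _ j (U j)) →
        ∀ (W' : WeilCohomology.{u, v'} ops) (Φ' : FrobSystem W' p) (σ' : W'.K →+* ℂ),
          SameZeta Φ σ Φ' σ' X → (∀ Z, RiemannHyp Φ' σ' Z) →
          ∀ n j (V : (pw X n).V.X.Opens), SmallComplement _ j V → FTateOpen Φ' _ j V) :=
  opens_of_power hRH X hint hE hbig hD

end Pool.Agent.Results.MP_2a05c8_ag.OpensOfOnePower
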